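import Pool.Agent.H98Z.PD.Data

namespace Pool.Agent.Results.MP_098314_co.AFivePoints

open Pool.Agent.H98Z.PD

/-- There is a finite pairwise intersecting family of planar regions that is a pseudo-disk family
and a non-piercing family, and every point set that pierces it has at least five points. -/
theorem result :
    ∃ 𝓕 : Set (Set (ℝ × ℝ)), 𝓕.Finite ∧ IsPseudoDiskFamily 𝓕 ∧ IsNonPiercingFamily 𝓕 ∧
      PairwiseIntersecting 𝓕 ∧ ∀ P : Set (ℝ × ℝ), Pierces P 𝓕 → 5 ≤ P.encard :=
  dat_good.main

end Pool.Agent.Results.MP_098314_co.AFivePoints
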